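import Pool.Agent.H20.ER3.Lib

/-!
# MP_816b90_co: Operation C, row SE: the other component is even
-/

set_option autoImplicit false

namespace Pool.Agent.H68.ER3

open Pool.Agent.H48.ER Pool.Agent.H52.ER2 Pool.Agent.H66.ER2 Pool.Agent.H20.ER3

private theorem cn_insert2 {V : Type} {G : SimpleGraph V} {R : Set V} {c d : V} (h : Cn G R)
    (hc : ∃ r ∈ R, G.Adj c r) (hd : ∃ r ∈ R, G.Adj d r) : Cn G (insert c (insert d R)) := by
  obtain ⟨rc, hrc, hcr⟩ := hc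
  obtain ⟨rd, hrd, hdr⟩ := hd
  intro X hX hne hcl
  have mR : ∀ r ∈ R, r ∈ insert c (insert d R) := fun r hr => Or.inr (Or.inr hr)
  have hR : R ⊆ X := by
    have h1 : (X ∩ R).Nonempty := by
      obtain ⟨u, hu⟩ := hne
      rcases hX hu with rfl | rfl | h2
      · exact ⟨rc, hcl _ hu _ (mR _ hrc) hcr, hrc⟩
      · exact ⟨rd, hcl _ hu _ (mR _ hrd) hdr, hrd⟩
      · exact ⟨u, hu, h2⟩
    have h2 := h (X ∩ R) Set.inter_subset_right h1 fun u hu w hw hadj =>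
      ⟨hcl u hu.1 w (mR w hw) hadj, hw⟩
    exact Set.inter_eq_right.1 h2
  refine Set.Subset.antisymm hX ?_
  rintro u (rfl | rfl | hu)
  · exact hcl _ (hR hrc) _ (Or.inl rfl) hcr.symm
  · exact hcl _ (hR hrd) _ (Or.inr (Or.inl rfl)) hdr.symm
  · exact hR hu

theorem pf_SE (hCON : T_CON) (hHOL : T_HOL) : U_SE := by
  intro V G R S hG hR hev hst n c d X hX hc hd hn1 hXS
  rcases Nat.lt_or_ge n 2 with hn | hn
  · have : n = 0 := by omega
    rw [this]
    exact ⟨0, rfl⟩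
  have hcd : c ≠ d := hX.ne (by omega)
  have hncd : ¬ G.Adj c d := fun h => hn1 (hX.adj_iff.1 h)
  -- neighbours in S
  have hcS : ∃ s ∈ S, G.Adj c s := by
    obtain ⟨k, rfl⟩ : ∃ k, n = k + 1 := ⟨n - 1, by omega⟩
    obtain ⟨x', hx1, hx2, -, -⟩ := hX.tail
    refine ⟨x', ?_, hx1⟩
    rcases hXS x' hx2 with h | h | h
    · exact absurd h.symm hx1.ne
    · exact absurd (h ▸ hx1) hncd
    · exact h
  have hdS : ∃ s ∈ S, G.Adj d s := by
    obtain ⟨k, rfl⟩ : ∃ k, n = k + 1 := ⟨n - 1, by omega⟩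
    obtain ⟨x', hx1, hx2, -, -⟩ := hX.rev.tail
    refine ⟨x', ?_, hx1⟩
    rcases hXS x' hx2 with h | h | h
    · exact absurd (h ▸ hx1).symm hncd
    · exact absurd h.symm hx1.ne
    · exact h
  have hcR : c ∉ R := by
    intro h
    obtain ⟨s, hs, hs'⟩ := hcS
    exact hst.ne c h s hs hs'
  have hdR : d ∉ R := by
    intro h
    obtain ⟨s, hs, hs'⟩ := hdS
    exact hst.ne d h s hs hs'
  have hcr := (hst.nb c hcR hc).1 hcS
  have hdr := (hst.nb d hdR hd).1 hdS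
  obtain ⟨m, T, hT, hTD⟩ := hCON V G _ c d (cn_insert2 hR hcr hdr) (Or.inl rfl)
    (Or.inr (Or.inl rfl))
  have hm0 : m ≠ 0 := by
    rintro rfl
    exact hcd hT.eq_of_zero.1
  have hm1 : m ≠ 1 := by
    rintro rfl
    exact hncd (hT.adj_iff.2 rfl)
  have hme : Even m := hev m c d T hT hcR hdR hm1 fun w hw => hTD hw
  obtain ⟨k, rfl⟩ : ∃ k, m = k + 1 + 1 := ⟨m - 2, by omega⟩
  obtain ⟨z, hz1, hz2, hT1, hz3⟩ := hT.tail
  obtain ⟨w, hw1, hw2, hT2, hw3⟩ := hT1.rev.tail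
  have hT2R : ∀ u ∈ (T \ {c}) \ {d}, u ∈ R := by
    rintro u ⟨⟨hu1, hu2⟩, hu3⟩
    rcases hTD hu1 with h | h | h
    · exact absurd h hu2
    · exact absurd h hu3
    · exact h
  have hXR : ∀ u ∈ X, u ∉ R := by
    intro u hu h
    rcases hXS u hu with h1 | h1 | h1
    · exact hcR (h1 ▸ h)
    · exact hdR (h1 ▸ h)
    · exact Set.disjoint_left.1 hst.dis h h1
  have key := hHOL V G n k c d z w X ((T \ {c}) \ {d}) hG hX hT2.rev
    (Set.disjoint_left.2 fun u hu h => hXR u hu (hT2R u h)) (fun a ha b hb => ?_) (by omega)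
  · have h1 : Even (k + 2) := hme
    rw [Nat.even_iff] at *
    omega
  · have hbR := hT2R b hb
    constructor
    · intro hab
      rcases hXS a ha with h | h | h
      · left
        refine ⟨h, hz3 b hb.1.1 (h ▸ hab)⟩
      · right
        refine ⟨h, hw3 b hb.1 (h ▸ hab)⟩
      · exact absurd hab.symm (hst.ne b hbR a h)
    · rintro (⟨rfl, rfl⟩ | ⟨rfl, rfl⟩)
      · exact hz1
      · exact hw1

end Pool.Agent.H68.ER3
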